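import Mathlib
import Pool.Agent.Helper59.EA.Strong
import Pool.Agent.Helper59.EA.Props
import Pool.Agent.Helper19.ETC.Pre
import Pool.Agent.Helper19.ETC.V2nc
import Pool.Agent.Helper90.V3.Nx

set_option autoImplicit false

/-! # The maximal pro-`p` Galois group as a free product of local groups

By the members of the team working on the elementary type conjecture. -/

namespace Pool.Agent.Results.MP_600e55_nt.FreeProductDecomposition

open Pool.Agent.ETC Pool.Agent.Helper59.EA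

/-- The decomposition group in `Gal(K/F)` of the valuation ring `W` of `K`. -/
def DecompositionGroup (F : Type) [Field F] {K : Type} [Field K] [Algebra F K]
    (W : ValuationSubring K) : Subgroup (K ≃ₐ[F] K) where
  carrier := {σ | ∀ x : K, σ x ∈ W ↔ x ∈ W}
  one_mem' := fun _ => Iff.rfl
  mul_mem' := fun {σ τ} hσ hτ x => (hσ (τ x)).trans (hτ x)
  inv_mem' := fun {σ} hσ x => by
    have h := hσ (σ⁻¹ x)
    rw [← AlgEquiv.mul_apply, mul_inv_cancel, AlgEquiv.one_apply] at h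
    exact h.symm

/-- `G` is the free pro-`p` product of its closed subgroups `H i`: every family of continuous
homomorphisms from the `H i` to a finite `p`-group extends uniquely to `G`. -/
structure IsFreeProduct (p : ℕ) {G : Type} [Group G] [TopologicalSpace G] {I : Type}
    (H : I → Subgroup G) : Prop where
  closed : ∀ i, IsClosed (H i : Set G)
  extend : ∀ (P : Type) [Group P] [Finite P], (∃ k : ℕ, Nat.card P = p ^ k) →
    ∀ φ : (i : I) → (H i →* P), (∀ i, IsOpen ((φ i).ker : Set (H i))) →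
      ∃! ψ : G →* P, IsOpen (ψ.ker : Set G) ∧ ∀ i, ∀ x : H i, ψ (x : G) = φ i x

/-- Tame places: the residue characteristic is not `p`, the value group is not `p`-divisible, and
`F*/F*^p (1 + m)` is not cyclic. -/
structure IsTame (p : ℕ) {F : Type} [Field F] (R : ValuationSubring F) : Prop where
  unit : R.valuation (p : F) = 1
  value : ∃ c : F, c ≠ 0 ∧ ∀ f : F, R.valuation (c * f ^ p) ≠ 1
  notCyclic : ∀ g : F, g ≠ 0 → ∃ x : F, x ≠ 0 ∧ ∀ (n : ℕ) (f y : F), R.valuation y < 1 →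
    x ≠ g ^ n * (f ^ p * (1 + y))

/-- `P` is the set of positive elements of an ordering of the field `F`. -/
structure IsPositiveCone {F : Type} [Field F] (P : Set F) : Prop where
  zero : (0 : F) ∉ P
  add : ∀ x ∈ P, ∀ y ∈ P, x + y ∈ P
  mul : ∀ x ∈ P, ∀ y ∈ P, x * y ∈ P
  total : ∀ x : F, x ≠ 0 → x ∈ P ∨ -x ∈ P

/-- Exceptional places (for `p = 2`): `1 + m` is positive for an ordering whose group of positive
elements is cyclic modulo `F*^2 (1 + m)`. -/
def IsExceptional {F : Type} [Field F] (R : ValuationSubring F) : Prop :=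
  ∃ P : Set F, IsPositiveCone P ∧ (∀ y : F, R.valuation y < 1 → 1 + y ∈ P) ∧
    ∃ g : F, g ≠ 0 ∧ ∀ x ∈ P, ∃ (n : ℕ) (f y : F), R.valuation y < 1 ∧
      x = g ^ n * (f ^ 2 * (1 + y))

/-- `p`-adic places: the residue field is finite of characteristic `p`, there is an element `π` of
largest value below `1`, some power of `π` has at most the value of `p`, and all values are products
of a `p`-th power and a power of the value of `π`. -/
structure IsPadic (p : ℕ) {F : Type} [Field F] (R : ValuationSubring F) : Prop where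
  residue : R.valuation (p : F) < 1
  finite : Finite (IsLocalRing.ResidueField R)
  uniformizer : ∃ π : F, π ≠ 0 ∧ R.valuation π < 1 ∧
    (∀ x : F, R.valuation x < 1 → R.valuation x ≤ R.valuation π) ∧
    (∃ e : ℕ, R.valuation π ^ e ≤ R.valuation (p : F)) ∧
    ∀ x : F, x ≠ 0 → ∃ (f : F) (n : ℕ), R.valuation x = R.valuation f ^ p * R.valuation π ^ n

/-- The places of `F`. -/
def IsPlace (p : ℕ) {F : Type} [Field F] (R : ValuationSubring F) : Prop :=
  (IsTame p R ∧ (p = 2 → ¬ IsExceptional R)) ∨ IsPadic p R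

/-! ### Comparison of the definitions -/

section

variable {F : Type} [Field F] {p : ℕ} {ζ : F} {R : ValuationSubring F}

theorem mem_TR_tame (hp : p.Prime) (hζ : IsPrimitiveRoot ζ p) (hR : R.valuation (p : F) = 1)
    {t : Fˣ} : t ∈ TR p ζ R ↔ ∃ f y : F, R.valuation y < 1 ∧ (t : F) = f ^ p * (1 + y) := by
  rw [mem_TR hp.ne_zero hζ.pow_eq_one (hζ.ne_one hp.one_lt)]
  constructor
  · rintro ⟨f, y, hy, h⟩
    exact ⟨f, y, (sm_of_pv hp hζ hR).1 hy, h⟩
  · rintro ⟨f, y, hy, h⟩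
    have hf : f ≠ 0 := by
      rintro rfl
      rw [zero_pow hp.ne_zero, zero_mul] at h
      exact t.ne_zero h
    exact ⟨Units.mk0 f hf, y, (sm_of_pv hp hζ hR).2 hy, h⟩

theorem tame_iff (hp : p.Prime) (hζ : IsPrimitiveRoot ζ p) : IsTame p R ↔ V1 p ζ R := by
  constructor
  · intro h
    obtain ⟨c, hc0, hc⟩ := h.value
    refine ⟨h.unit, ⟨Units.mk0 c hc0, fun f hf => hc f (by simpa using hf)⟩, fun g => ?_⟩
    obtain ⟨x, hx0, hx⟩ := h.notCyclic g g.ne_zero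
    refine ⟨Units.mk0 x hx0, fun n hn => ?_⟩
    obtain ⟨f, y, hy, hxy⟩ := (mem_TR_tame hp hζ h.unit).1 hn
    apply hx n f y hy
    rw [← hxy, Units.val_div_eq_div_val, Units.val_mk0, Units.val_pow_eq_pow_val,
      mul_div_cancel₀ _ (pow_ne_zero n g.ne_zero)]
  · intro h
    obtain ⟨c, hc⟩ := h.nu
    refine ⟨h.pv, ⟨c, c.ne_zero, fun f hf => ?_⟩, fun g hg => ?_⟩
    · have hf0 : f ≠ 0 := by
        rintro rfl
        rw [zero_pow hp.ne_zero, mul_zero, map_zero] at hf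
        exact zero_ne_one hf
      exact hc (Units.mk0 f hf0) (by simpa using hf)
    · obtain ⟨x, hx⟩ := h.nc (Units.mk0 g hg)
      refine ⟨x, x.ne_zero, fun n f y hy hxy => hx n ?_⟩
      rw [mem_TR_tame hp hζ h.pv]
      refine ⟨f, y, hy, ?_⟩
      rw [Units.val_div_eq_div_val, Units.val_pow_eq_pow_val, Units.val_mk0, hxy,
        mul_div_cancel_left₀ _ (pow_ne_zero n hg)]

theorem padic_iff (hp : p.Prime) : IsPadic p R ↔ V2 p R := by
  constructor
  · intro h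
    obtain ⟨π, h0, h1, h2, h3, h4⟩ := h.uniformizer
    refine ⟨h.residue, h.finite, Units.mk0 π h0, h1, h2, h3, fun x => ?_⟩
    obtain ⟨f, n, hf⟩ := h4 x x.ne_zero
    have hf0 : f ≠ 0 := by
      rintro rfl
      rw [map_zero, zero_pow hp.ne_zero, zero_mul, Valuation.zero_iff] at hf
      exact x.ne_zero hf
    exact ⟨Units.mk0 f hf0, n, hf⟩
  · intro h
    obtain ⟨π, h1, h2, h3, h4⟩ := h.unif
    refine ⟨h.pv, h.fin, π, π.ne_zero, h1, h2, h3, fun x hx => ?_⟩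
    obtain ⟨f, n, hf⟩ := h4 (Units.mk0 x hx)
    exact ⟨f, n, hf⟩

theorem exists_cone {S : Subgroup Fˣ} (hS : Pool.Agent.Helper58.EU.Ordg S) :
    ∃ P : Set F, IsPositiveCone P ∧ ∀ u : Fˣ, (u : F) ∈ P ↔ u ∈ S := by
  have hmem : ∀ u : Fˣ, (u : F) ∈ {x : F | ∃ v ∈ S, (v : F) = x} ↔ u ∈ S := by
    intro u
    constructor
    · rintro ⟨v, hv, h⟩
      rwa [← Units.ext h]
    · exact fun h => ⟨u, h, rfl⟩
  refine ⟨{x : F | ∃ v ∈ S, (v : F) = x}, ⟨?_, ?_, ?_, ?_⟩, hmem⟩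
  · rintro ⟨v, -, h⟩
    exact v.ne_zero h
  · rintro _ ⟨u, hu, rfl⟩ _ ⟨v, hv, rfl⟩
    obtain ⟨z, hz, hzS⟩ := hS.add (v / u) (div_mem hv hu)
    refine ⟨u * z, mul_mem hu hzS, ?_⟩
    rw [Units.val_mul, hz, Units.val_div_eq_div_val, mul_add, mul_one,
      mul_div_cancel₀ _ u.ne_zero]
  · rintro _ ⟨u, hu, rfl⟩ _ ⟨v, hv, rfl⟩
    exact ⟨u * v, mul_mem hu hv, rfl⟩
  · intro x hx
    rcases hS.tot (Units.mk0 x hx) with h | h
    · exact Or.inl ⟨_, h, rfl⟩
    · exact Or.inr ⟨_, h, rfl⟩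

theorem exists_ordg {P : Set F} (hP : IsPositiveCone P) :
    ∃ S : Subgroup Fˣ, Pool.Agent.Helper58.EU.Ordg S ∧ ∀ u : Fˣ, u ∈ S ↔ (u : F) ∈ P := by
  have h1 : (1 : F) ∈ P := by
    rcases hP.total 1 one_ne_zero with h | h
    · exact h
    · have := hP.mul _ h _ h
      rwa [neg_mul_neg, mul_one] at this
  have hn : (-1 : F) ∉ P := fun h => hP.zero (by
    have := hP.add _ h1 _ h
    rwa [add_neg_cancel] at this)
  refine ⟨{ carrier := {u | (u : F) ∈ P}
            one_mem' := h1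
            mul_mem' := fun {u v} hu hv => hP.mul _ hu _ hv
            inv_mem' := fun {u} hu => ?_ }, ⟨?_, ?_, ?_⟩, fun u => Iff.rfl⟩
  · rcases hP.total ((u⁻¹ : Fˣ) : F) (Units.ne_zero _) with h | h
    · exact h
    · exfalso
      apply hn
      have := hP.mul _ hu _ h
      rwa [mul_neg, Units.mul_inv] at this
  · intro h
    have h' : ((-1 : Fˣ) : F) ∈ P := h
    rw [Units.val_neg, Units.val_one] at h'
    exact hn h'
  · intro u
    rcases hP.total (u : F) u.ne_zero with h | h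
    · exact Or.inl h
    · exact Or.inr h
  · intro u hu
    have h2 := hP.add _ h1 _ hu
    have h3 : 1 + (u : F) ≠ 0 := fun h => hP.zero (by rwa [h] at h2)
    exact ⟨Units.mk0 _ h3, rfl, h2⟩

theorem nx_iff (hζ : IsPrimitiveRoot ζ 2) (hR : R.valuation ((2 : ℕ) : F) = 1) :
    ¬ IsExceptional R ↔ NX 2 ζ R := by
  constructor
  · intro h S hS hT g
    by_contra hcon
    push Not at hcon
    apply h
    obtain ⟨P, hP, hPS⟩ := exists_cone hS
    refine ⟨P, hP, ?_, g, g.ne_zero, ?_⟩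
    · intro y hy
      have h1 := val_one_add hy
      have h0 : 1 + y ≠ 0 := by
        intro h0
        rw [h0, map_zero] at h1
        exact zero_ne_one h1
      have h2 : Units.mk0 (1 + y) h0 ∈ S := hT ((mem_TR_tame Nat.prime_two hζ hR).2
        ⟨1, y, hy, by rw [one_pow, one_mul, Units.val_mk0]⟩)
      exact (hPS _).2 h2
    · intro x hx
      have hx0 : x ≠ 0 := fun h0 => hP.zero (by rwa [h0] at hx)
      obtain ⟨n, hn⟩ := hcon (Units.mk0 x hx0) ((hPS _).1 hx)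
      obtain ⟨f, y, hy, hxy⟩ := (mem_TR_tame Nat.prime_two hζ hR).1 hn
      refine ⟨n, f, y, hy, ?_⟩
      rw [← hxy, Units.val_div_eq_div_val, Units.val_mk0, Units.val_pow_eq_pow_val,
        mul_div_cancel₀ _ (pow_ne_zero n g.ne_zero)]
  · rintro h ⟨P, hP, h1, g, hg, h2⟩
    obtain ⟨S, hS, hSP⟩ := exists_ordg hP
    have hT : TR 2 ζ R ≤ S := by
      intro t ht
      obtain ⟨f, y, hy, hty⟩ := (mem_TR_tame Nat.prime_two hζ hR).1 ht
      rw [hSP, hty]
      have hf : f ≠ 0 := by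
        rintro rfl
        rw [zero_pow two_ne_zero, zero_mul] at hty
        exact t.ne_zero hty
      refine hP.mul _ ?_ _ (h1 y hy)
      rw [pow_two]
      rcases hP.total f hf with h3 | h3
      · exact hP.mul _ h3 _ h3
      · have := hP.mul _ h3 _ h3
        rwa [neg_mul_neg] at this
    obtain ⟨x, hx, hxn⟩ := h S hS hT (Units.mk0 g hg)
    obtain ⟨n, f, y, hy, hxy⟩ := h2 x ((hSP x).1 hx)
    apply hxn n
    rw [mem_TR_tame Nat.prime_two hζ hR]
    refine ⟨f, y, hy, ?_⟩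
    rw [Units.val_div_eq_div_val, Units.val_pow_eq_pow_val, Units.val_mk0, hxy,
      mul_div_cancel_left₀ _ (pow_ne_zero n hg)]

theorem place_iff (hp : p.Prime) (hζ : IsPrimitiveRoot ζ p) : IsPlace p R ↔ PlN p ζ R := by
  rcases hp.eq_two_or_odd' with h2 | hodd
  · subst h2
    constructor
    · rintro (⟨h1, h2⟩ | h)
      · exact ⟨Or.inl ((tame_iff hp hζ).1 h1), (nx_iff hζ h1.unit).1 (h2 rfl)⟩
      · have h' := (padic_iff hp).1 h
        exact ⟨Or.inr h', fun P hP hT => absurd hT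
          (Pool.Agent.Helper14.ER.t_V2O F ζ hζ R h' P hP)⟩
    · rintro ⟨h1 | h1, h2⟩
      · exact Or.inl ⟨(tame_iff hp hζ).2 h1, fun _ => (nx_iff hζ h1.pv).2 h2⟩
      · exact Or.inr ((padic_iff hp).2 h1)
  · constructor
    · rintro (⟨h1, -⟩ | h)
      · exact ⟨Or.inl ((tame_iff hp hζ).1 h1), NX.of_odd hodd ζ R⟩
      · exact ⟨Or.inr ((padic_iff hp).1 h), NX.of_odd hodd ζ R⟩
    · rintro ⟨h1 | h1, -⟩
      · refine Or.inl ⟨(tame_iff hp hζ).2 h1, fun h => ?_⟩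
        rw [h] at hodd
        exact absurd hodd (by decide)
      · exact Or.inr ((padic_iff hp).2 h1)

end

/-- the covering family -/
theorem cover : S_COVER :=
  t_COVER Pool.Agent.Helper39.FAM.t_FAMA (t_SINGLEA Pool.Agent.Helper95.EC.t_PCLUP) t_V3
    (t_NLIFT Pool.Agent.Helper95.EC.t_NORMCUP Pool.Agent.Helper95.EC.t_PCLUP)
    Pool.Agent.Helper99.ER.t_INVO Pool.Agent.Helper99.ER.t_EXIST
    Pool.Agent.Helper99.ER.t_CONJINV Pool.Agent.Helper14.ER.t_COMPO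
    Pool.Agent.Helper40.ET.t_COMPV Pool.Agent.ETC.t_V2NC

/-- **The maximal pro-`p` Galois group.** -/
theorem result (p : ℕ) [Fact p.Prime] (F : Type) [Field F] (hζ : ∃ ζ : F, IsPrimitiveRoot ζ p)
    (K : IntermediateField F (AlgebraicClosure F))
    (hK : K = sSup {L : IntermediateField F (AlgebraicClosure F) |
      FiniteDimensional F L ∧ IsGalois F L ∧ ∃ k : ℕ, Module.finrank F L = p ^ k}) :
    ((∃ S : Finset (↥K ≃ₐ[F] ↥K),
        Dense ((Subgroup.closure (S : Set (↥K ≃ₐ[F] ↥K)) : Set (↥K ≃ₐ[F] ↥K)))) ↔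
      (powMonoidHom p : Fˣ →* Fˣ).range.FiniteIndex) ∧
    ((∃ S : Finset (↥K ≃ₐ[F] ↥K),
        Dense ((Subgroup.closure (S : Set (↥K ≃ₐ[F] ↥K)) : Set (↥K ≃ₐ[F] ↥K)))) →
      ∃ (n m : ℕ) (Z : Fin n → Subgroup (↥K ≃ₐ[F] ↥K)) (g : Fin m → (↥K ≃ₐ[F] ↥K)),
        IsFreeProduct p (Sum.elim Z fun l => (Subgroup.zpowers (g l)).topologicalClosure) ∧
        (∀ l, Nonempty ((Subgroup.zpowers (g l)).topologicalClosure ≃ₜ*
          Multiplicative (PadicInt p))) ∧
        (∀ i,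
          (∃ W : ValuationSubring ↥K, Z i = DecompositionGroup F W ∧
            IsPlace p (W.comap (algebraMap F ↥K)) ∧
            ∃ σ ∈ Z i, σ ≠ 1 ∧ ∀ x ∈ W, W.valuation (σ x - x) < 1) ∨
          (p = 2 ∧ ∃ τ : ↥K ≃ₐ[F] ↥K, τ * τ = 1 ∧ τ ≠ 1 ∧ Z i = Subgroup.zpowers τ)) ∧
        (∀ V : ValuationSubring ↥K, IsPlace p (V.comap (algebraMap F ↥K)) →
          ∃ (i : Fin n) (h : ↥K ≃ₐ[F] ↥K), ∀ σ ∈ DecompositionGroup F V, h⁻¹ * σ * h ∈ Z i) ∧
        (∀ τ : ↥K ≃ₐ[F] ↥K, p = 2 → τ * τ = 1 → τ ≠ 1 →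
          ∃ (i : Fin n) (h : ↥K ≃ₐ[F] ↥K), h⁻¹ * τ * h ∈ Z i)) := by
  obtain ⟨ζ, hζ⟩ := hζ
  have hp : p.Prime := Fact.out
  have hP : PCl p F K := pcl_of_max hp ⟨ζ, hζ⟩ hK
  have hgal : IsGalois F K := hP.gal
  refine ⟨⟨fun h => ⟨Pool.Agent.Helper26.ET.t_FG p F K ⟨ζ, hζ⟩ hP h⟩,
    fun h => fg_of_finite hζ hP h.index_ne_zero⟩, fun hfg => ?_⟩
  have hC := Pool.Agent.Helper26.ET.t_FG p F K ⟨ζ, hζ⟩ hP hfg
  obtain ⟨I, hI, T, Z, hF, hcov⟩ := cover p F K ζ hζ hP hC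
  obtain ⟨n, ⟨e⟩⟩ := Finite.exists_equiv_fin I
  have hclosed : ∀ i, IsClosed (Z i : Set (↥K ≃ₐ[F] ↥K)) := by
    intro i
    rcases hF.dz i with ⟨W, hW, -⟩ | ⟨-, τ, hτ, hW⟩
    · rw [hW]
      exact Pool.Agent.Helper59.EA.dec_closed W
    · rw [hW]
      exact inv_closed hτ.1
  have hLG : LG p fun j => Z (e.symm j) := by
    refine Pool.Agent.Helper83.ET.lg_cover
      (Pool.Agent.Helper40.ET.t_STARA Pool.Agent.Helper90.V3.t_STARNX
        Pool.Agent.Helper14.ER.t_V2O) Pool.Agent.Helper26.ET.t_FIN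
      Pool.Agent.Helper95.EC.t_PCLUP cover (t_XF Pool.Agent.Helper95.EC.t_NORMCUP)
      Pool.Agent.Helper95.EC.t_NORMCUP ⟨ζ, hζ⟩ hP hC _ ?_
    intro Z' hZ'
    obtain ⟨i, g, hg⟩ := hcov Z' hZ'
    refine ⟨e i, g, ?_⟩
    rw [Equiv.symm_apply_apply]
    exact hg
  have hroot := hP.root
  obtain ⟨m, g, h1, h2, h3⟩ := assembly2 (proP hP) hfg (fun j => Z (e.symm j))
    (fun j => hclosed _) (hsurj_of hζ hP.root (fun j => Z (e.symm j)) (fun j => T (e.symm j))
      (fun j => hclosed _) (fun j => hF.gen _) (by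
        intro j t ht
        obtain ⟨α, hα⟩ := hroot (algebraMap F K (t : F))
        exact ⟨α, fun σ hσ => ((hF.good (e.symm j)).mem t).1 ht α hα σ hσ, hα⟩) (by
        intro u
        obtain ⟨y, hy⟩ := hF.orth.onto fun i => u (e i)
        refine ⟨y, fun j => ?_⟩
        have := hy (e.symm j)
        rwa [Equiv.apply_symm_apply] at this)) hLG
  refine ⟨n, m, fun j => Z (e.symm j), g, ⟨h1, h2⟩, h3, ?_, ?_, ?_⟩
  · intro j
    rcases hF.dz (e.symm j) with ⟨W, hW, hpl⟩ | ⟨h2, τ, hτ, hW⟩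
    · left
      have h4 := hpl ζ hζ
      obtain ⟨σ, hσ, hσ1, hσ2⟩ := t_INERT p F K ζ hζ hP W (h4.1.top hp hζ) (nu_of_pl hp h4.1)
      refine ⟨W, hW, (place_iff hp hζ).2 h4, σ, ?_, hσ1, hσ2⟩
      change σ ∈ Z (e.symm j)
      rw [hW]
      exact hσ
    · right
      exact ⟨h2, τ, hτ.1, hτ.2, hW⟩
  · intro V hV
    obtain ⟨i, h, hh⟩ := hcov (Dec F V) (Or.inl ⟨V, rfl, fun ζ' hζ' => (place_iff hp hζ').1 hV⟩)
    refine ⟨e i, h, fun σ hσ => ?_⟩
    change h⁻¹ * σ * h ∈ Z (e.symm (e i))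
    rw [Equiv.symm_apply_apply]
    exact hh σ hσ
  · intro τ h2 hτ hτ1
    obtain ⟨i, h, hh⟩ := hcov (Subgroup.zpowers τ) (Or.inr ⟨h2, τ, ⟨hτ, hτ1⟩, rfl⟩)
    refine ⟨e i, h, ?_⟩
    change h⁻¹ * τ * h ∈ Z (e.symm (e i))
    rw [Equiv.symm_apply_apply]
    exact hh τ (Subgroup.mem_zpowers τ)

end Pool.Agent.Results.MP_600e55_nt.FreeProductDecomposition
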