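import Mathlib
import Pool.Agent.Helper58.ET.K2
import Pool.Graph.R_seed8.Y86.EP.Kum
import Pool.Graph.R_seed8.Y279.EP.Up
import Pool.Graph.R_seed8.Y925.EP.Tower
import Pool.Graph.R_seed8.Y419.EP.Inert
import Pool.Graph.R_seed8.Y469.EP.Max

set_option autoImplicit false

/-! # MP_600e55_nt: the indecomposable case of Efrat's conjecture, `p` odd

Let `p` be an odd prime, `F` a field with a primitive `p`-th root of unity such that `F*/F*^p` is
finite and not trivial, and let `K₂(F)/p` be Milnor's group, generated by the symbols `{a, b}`.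

**Theorem.** Suppose that the pairing `F*/F*^p × F*/F*^p → K₂(F)/p` is nondegenerate and is not an
orthogonal sum: if `F*/F*^p` is the direct product of subgroups `H` and `K` with `{H, K} = 0` and
`{H, H} ∩ {K, K} = 0`, then `H` or `K` is trivial. Then the maximal pro-`p` Galois group of `F` is
the decomposition group of a valuation with nontrivial inertia, and the conclusion of Q1 holds with
`n = 1` and (ii). In particular this holds if the pairing is nondegenerate and `K₂(F)/p` has order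
`p` (the arithmetic Demushkin case). -/

namespace Pool.Agent.Results.MP_600e55_nt.IndecomposableSymbols

open Pool.Agent.Y920.EP Pool.Agent.Helper58.EB Pool.Agent.Helper58.ET
open scoped TensorProduct

/-- the group `T` of `p`-th powers of `F*` -/
def powers (F : Type) [Field F] (p : ℕ) : Subgroup Fˣ := (powMonoidHom p : Fˣ →* Fˣ).range

/-- the group `F*/T` -/
def Classes (F : Type) [Field F] (p : ℕ) : Type := Fˣ ⧸ powers F p

instance instClasses (F : Type) [Field F] (p : ℕ) : CommGroup (Classes F p) :=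
  inferInstanceAs (CommGroup (Fˣ ⧸ powers F p))

/-- the class of `a` in `F*/T`, written additively -/
def cls {F : Type} [Field F] (p : ℕ) (a : Fˣ) : Additive (Classes F p) :=
  Additive.ofMul (QuotientGroup.mk a : Fˣ ⧸ powers F p)

/-- the Steinberg relations `{u, 1 - u} = 0` -/
def steinberg (F : Type) [Field F] (p : ℕ) :
    AddSubgroup (Additive (Classes F p) ⊗[ℤ] Additive (Classes F p)) :=
  AddSubgroup.closure {x | ∃ u v : Fˣ, (u : F) + v = 1 ∧ x = cls p u ⊗ₜ[ℤ] cls p v}

/-- Milnor's group `K₂(F)/p` -/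
abbrev K2 (F : Type) [Field F] (p : ℕ) : Type :=
  (Additive (Classes F p) ⊗[ℤ] Additive (Classes F p)) ⧸ steinberg F p

/-- the symbol `{a, b}` -/
def symbol {F : Type} [Field F] (p : ℕ) (a b : Fˣ) : K2 F p :=
  QuotientAddGroup.mk (cls p a ⊗ₜ[ℤ] cls p b)

/-- the subgroup of `K₂(F)/p` generated by the symbols of elements of `H` -/
def symbols {F : Type} [Field F] (p : ℕ) (H : Subgroup Fˣ) : AddSubgroup (K2 F p) :=
  AddSubgroup.closure {x | ∃ h ∈ H, ∃ h' ∈ H, x = symbol p h h'}

/-- only the `p`-th powers are orthogonal to all elements -/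
def Nondegenerate (F : Type) [Field F] (p : ℕ) : Prop :=
  ∀ a : Fˣ, (∀ b : Fˣ, symbol p a b = 0) → a ∈ powers F p

/-- `F*/T` is the direct product of `H/T` and `K/T`, and `K₂(F)/p` is the direct sum of the groups
of symbols of `H` and of `K` -/
def IsSplitting {F : Type} [Field F] (p : ℕ) (H K : Subgroup Fˣ) : Prop :=
  H ⊔ K = ⊤ ∧ H ⊓ K = powers F p ∧ (∀ h ∈ H, ∀ k ∈ K, symbol p h k = 0) ∧
    Disjoint (symbols p H) (symbols p K)

/-- there is no nontrivial splitting -/
def Indecomposable (F : Type) [Field F] (p : ℕ) : Prop :=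
  ∀ H K : Subgroup Fˣ, IsSplitting p H K → H = powers F p ∨ K = powers F p

/-- `K` is the compositum of the finite Galois extensions of `F` of `p`-power degree -/
def IsMaximalPExtension (p : ℕ) {F : Type} [Field F]
    (K : IntermediateField F (AlgebraicClosure F)) : Prop :=
  K = sSup {L : IntermediateField F (AlgebraicClosure F) |
    FiniteDimensional F L ∧ IsGalois F L ∧ ∃ k : ℕ, Module.finrank F L = p ^ k}

/-- the subgroup `H` of `Gal(K/F)` is the decomposition group of a valuation of `K`, with nontrivial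
inertia -/
def IsDecompositionGroup {F K : Type} [Field F] [Field K] [Algebra F K]
    (H : Subgroup (K ≃ₐ[F] K)) : Prop :=
  ∃ (Γ : Type) (_ : LinearOrderedCommGroupWithZero Γ) (w : Valuation K Γ),
    (∀ σ : K ≃ₐ[F] K, σ ∈ H ↔ ∀ x : K, (w (σ x) ≤ 1 ↔ w x ≤ 1)) ∧
    ∃ σ ∈ H, σ ≠ 1 ∧ ∀ x : K, w x ≤ 1 → w (σ x - x) < 1

/-- `G` is the free pro-`p` product of the closed subgroups `H i` -/
def IsFreeProduct (p : ℕ) {G : Type} [Group G] [TopologicalSpace G] {n : ℕ}
    (H : Fin n → Subgroup G) : Prop :=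
  (∀ i, IsClosed (H i : Set G)) ∧
  ∀ (P : Type) [Group P] [Finite P], (∃ k : ℕ, Nat.card P = p ^ k) →
    ∀ φ : (i : Fin n) → (H i →* P), (∀ i, IsOpen ((φ i).ker : Set (H i))) →
      ∃! ψ : G →* P, IsOpen (ψ.ker : Set G) ∧ ∀ i, ∀ x : H i, ψ (x : G) = φ i x

/-- the conclusion of Q1 for `Gal(K/F)` -/
def ElementaryType (p : ℕ) [Fact p.Prime] (F K : Type) [Field F] [Field K] [Algebra F K] : Prop :=
  ∃ (n : ℕ) (H : Fin n → Subgroup (K ≃ₐ[F] K)), IsFreeProduct p H ∧
    ∀ i, Nonempty (H i ≃ₜ* Multiplicative (PadicInt p)) ∨ IsDecompositionGroup (H i) ∨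
      (p = 2 ∧ Nat.card (H i) = 2)

/-- the maximal pro-`p` Galois group is a decomposition group with nontrivial inertia, and it is of
elementary type -/
def Conclusion (p : ℕ) [Fact p.Prime] (F : Type) [Field F] : Prop :=
  ∀ K : IntermediateField F (AlgebraicClosure F), IsMaximalPExtension p K →
    IsDecompositionGroup (⊤ : Subgroup (K ≃ₐ[F] K)) ∧ ElementaryType p F K

section

variable {F : Type} [Field F] {p : ℕ}

lemma mem_powers {a : Fˣ} : a ∈ powers F p ↔ ∃ b : Fˣ, a = b ^ p := by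
  constructor
  · rintro ⟨b, rfl⟩
    exact ⟨b, rfl⟩
  · rintro ⟨b, rfl⟩
    exact ⟨b, rfl⟩

lemma exists_phi (F : Type) [Field F] (p : ℕ) : ∃ φ : Fˣ →* Classes F p,
    (∀ a : Fˣ, Additive.ofMul (φ a) = cls p a) ∧ Function.Surjective φ ∧
      ∀ u : Fˣ, φ u = 1 ↔ ∃ c : Fˣ, u = c ^ p := by
  refine ⟨QuotientGroup.mk' (powers F p), fun _ => rfl, ?_, ?_⟩
  · intro b
    obtain ⟨a, ha⟩ := QuotientGroup.mk_surjective (s := powers F p) b
    exact ⟨a, ha⟩
  · intro u
    rw [← mem_powers]
    exact QuotientGroup.eq_one_iff u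

lemma symbol_eq_zero {a b : Fˣ} :
    symbol p a b = 0 ↔ cls p a ⊗ₜ[ℤ] cls p b ∈ steinberg F p := by
  unfold symbol
  exact QuotientAddGroup.eq_zero_iff _

/-- the Galois-theoretic part -/
lemma conclusion_of [Fact p.Prime] (h : ∀ K : IntermediateField F (AlgebraicClosure F),
    IsMaxP p F K → DecInert F K) : Conclusion p F := by
  intro K hK
  have hD := h K hK
  refine ⟨?_, ?_⟩
  · obtain ⟨Γ, iΓ, w, hw, σ, hσ, hi⟩ := hD
    exact ⟨Γ, iΓ, w, fun τ => ⟨fun _ x => hw τ x, fun _ => Subgroup.mem_top τ⟩, σ,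
      Subgroup.mem_top σ, hσ, hi⟩
  · obtain ⟨n, H, h1, h2, h3⟩ := efratP p F K hD
    exact ⟨n, H, ⟨h1, h2⟩, h3⟩

/-- the two kinds of valuation rings -/
lemma conclusion_rings [Fact p.Prime] (hp2 : p ≠ 2) {ζ : Fˣ} (hζ : IsPrimitiveRoot ζ p)
    {A : Type} [CommGroup A] {φ : Fˣ →* A} (hk : ∀ u : Fˣ, φ u = 1 ↔ ∃ c : Fˣ, u = c ^ p)
    (h : (∃ O : ValuationSubring F, Helper58.EB.Gd φ p O ∧ ∃ c : Fˣ, ∀ f : Fˣ,
      ¬ (((c * f ^ p : Fˣ) : F) ∈ O ∧ (((c * f ^ p)⁻¹ : Fˣ) : F) ∈ O)) ∨
    ∃ (O : ValuationSubring F) (d : F), Op p O d ∧ ∃ c : Fˣ, ∀ f : Fˣ,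
      ¬ (((c * f ^ p : Fˣ) : F) ∈ O ∧ (((c * f ^ p)⁻¹ : Fˣ) : F) ∈ O)) :
    Conclusion p F := by
  have hp : p.Prime := Fact.out
  have hG : AllG := ⟨Pool.Agent.Y86.EP.t_KUM, Pool.Agent.Y279.EP.t_UP,
    Pool.Agent.Y925.EP.t_TOWER', Pool.Agent.Y419.EP.t_INERT', Pool.Agent.Y469.EP.t_MAX'⟩
  have hζF : IsPrimitiveRoot (ζ : F) p := by rwa [IsPrimitiveRoot.coe_units_iff]
  have hpF : (p : F) ≠ 0 := by
    have : NeZero p := ⟨hp.ne_zero⟩
    exact hζF.neZero'.ne
  apply conclusion_of
  intro K hK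
  rcases h with ⟨O, hO, hc⟩ | ⟨O, d, hO, hc⟩
  · refine decInert hG p hp hp2 F ⟨_, hζF⟩ O ⟨(pv_iff O hpF).1 hO.pv, hpF, ?_⟩ hc K hK
    intro x hx hx'
    obtain ⟨t, ht, ht1⟩ := hO.cmp x ((Helper58.EB.lt_one_iff O).2 (Or.inr hx'))
    rw [hk] at ht1
    obtain ⟨b, rfl⟩ := ht1
    exact ⟨b, by rw [← ht, Units.val_pow_eq_pow_val]⟩
  · exact decInert' hG p hp F ⟨_, hζF⟩ O hO hc K hK

/-- the first part of the theorem -/
lemma indecomposable_case [Fact p.Prime] (hp2 : p ≠ 2) (hζ : ∃ ζ : F, IsPrimitiveRoot ζ p)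
    (hfin : (powers F p).index ≠ 0) (hne : powers F p ≠ ⊤) (hnd : Nondegenerate F p)
    (hind : Indecomposable F p) : Conclusion p F := by
  have hp : p.Prime := Fact.out
  have hodd : Odd p := hp.odd_of_ne_two hp2
  obtain ⟨ζ, hζ⟩ := hζ
  have hζ0 : ζ ≠ 0 := hζ.ne_zero hp.ne_zero
  have hζ' : IsPrimitiveRoot (Units.mk0 ζ hζ0) p := by
    rw [← IsPrimitiveRoot.coe_units_iff]
    exact hζ
  have hfin' : Finite (Classes F p) := Nat.finite_of_card_ne_zero hfin
  obtain ⟨φ, hcls, hsurj, hk⟩ := exists_phi F p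
  have hnt : Nontrivial (Classes F p) := by
    by_contra hc
    rw [not_nontrivial_iff_subsingleton] at hc
    apply hne
    rw [eq_top_iff]
    intro a _
    rw [mem_powers, ← hk]
    exact Subsingleton.elim _ _
  have hneg : φ (-1) = 1 := (hk (-1)).2 ⟨-1, hodd.neg_one_pow.symm⟩
  have hSt : St φ = steinberg F p := by
    unfold St steinberg
    simp only [hcls]
  have hNd : Nd φ (Ns φ) := by
    apply nd_k2 hsurj hneg
    intro a ha
    obtain ⟨a, rfl⟩ := hsurj a
    rw [hk, ← mem_powers]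
    apply hnd
    intro b
    rw [symbol_eq_zero, ← hcls, ← hcls, ← hSt]
    exact ha (φ b)
  have hI : Indec φ (Ns φ) := by
    intro H K hS
    have hmem : ∀ {H : Subgroup (Classes F p)} {a : Fˣ}, a ∈ H.comap φ ↔ φ a ∈ H :=
      Iff.rfl
    have hbot : ∀ H : Subgroup (Classes F p), H.comap φ = powers F p → H = ⊥ := by
      intro H hH
      rw [eq_bot_iff]
      intro a ha
      obtain ⟨a, rfl⟩ := hsurj a
      rw [Subgroup.mem_bot, hk, ← mem_powers, ← hH]
      exact ha
    -- symbols and tensors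
    have hsym : ∀ (H : Subgroup (Classes F p)) (x : K2 F p), x ∈ symbols p (H.comap φ) →
        ∃ y ∈ Ts H, (QuotientAddGroup.mk y : K2 F p) = x := by
      intro H x hx
      unfold symbols at hx
      induction hx using AddSubgroup.closure_induction with
      | mem x hx =>
        obtain ⟨a, ha, b, hb, rfl⟩ := hx
        exact ⟨_, AddSubgroup.subset_closure ⟨φ a, ha, φ b, hb, rfl⟩, by
          unfold symbol
          rw [hcls, hcls]⟩
      | zero => exact ⟨0, zero_mem _, rfl⟩
      | add x y _ _ hx hy =>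
        obtain ⟨x', hx', rfl⟩ := hx
        obtain ⟨y', hy', rfl⟩ := hy
        exact ⟨x' + y', add_mem hx' hy', rfl⟩
      | neg x _ hx =>
        obtain ⟨x', hx', rfl⟩ := hx
        exact ⟨-x', neg_mem hx', rfl⟩
    have h1 : IsSplitting p (H.comap φ) (K.comap φ) := by
      refine ⟨?_, ?_, ?_, ?_⟩
      · rw [eq_top_iff]
        intro a _
        have ha : φ a ∈ H ⊔ K := by rw [hS.sup]; exact Subgroup.mem_top _
        rw [Subgroup.mem_sup] at ha
        obtain ⟨b, hb, c, hc, e⟩ := ha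
        obtain ⟨b, rfl⟩ := hsurj b
        have h2 : φ (a / b) ∈ K := by
          rw [map_div, ← e, mul_div_cancel_left]
          exact hc
        rw [← mul_div_cancel b a]
        exact mul_mem (Subgroup.mem_sup_left (hmem.2 hb)) (Subgroup.mem_sup_right (hmem.2 h2))
      · ext a
        rw [Subgroup.mem_inf, hmem, hmem, ← Subgroup.mem_inf, hS.inf, Subgroup.mem_bot, hk,
          mem_powers]
      · intro a ha b hb
        rw [symbol_eq_zero, ← hcls, ← hcls, ← hSt]
        exact hS.orth _ ha _ hb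
      · rw [AddSubgroup.disjoint_def]
        intro x hx hx'
        obtain ⟨y, hy, hyx⟩ := hsym H x hx
        obtain ⟨z, hz, hzx⟩ := hsym K x hx'
        have h2 : y - z ∈ St φ := by
          rw [hSt, ← QuotientAddGroup.eq_iff_sub_mem, hyx, hzx]
        have h3 := disj_of_split hS hneg hy hz h2
        rw [← hyx, QuotientAddGroup.eq_zero_iff, ← hSt]
        exact h3
    rcases hind _ _ h1 with h2 | h2
    · exact Or.inl (hbot H h2)
    · exact Or.inr (hbot K h2)
  exact conclusion_rings hp2 hζ' hk (rings hp hp2 hNd hI hζ' hk)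

/-- nondegenerate pairings with values in a group of order `p` are indecomposable -/
lemma indecomposable_of_card [Fact p.Prime] (hp2 : p ≠ 2) (hnd : Nondegenerate F p)
    (hcard : Nat.card (K2 F p) = p) : Indecomposable F p := by
  have hp : p.Prime := Fact.out
  have hodd : Odd p := hp.odd_of_ne_two hp2
  -- if one of the groups of symbols is trivial then so is the subgroup
  have key : ∀ H K : Subgroup Fˣ, H ⊔ K = ⊤ → (∀ h ∈ H, ∀ k ∈ K, symbol p h k = 0) →
      symbols p H = ⊥ → H ≤ powers F p := by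
    intro H K hHK horth hbot a ha
    apply hnd
    intro b
    have hb : b ∈ H ⊔ K := by rw [hHK]; exact Subgroup.mem_top b
    rw [Subgroup.mem_sup] at hb
    obtain ⟨c, hc, k, hk, rfl⟩ := hb
    have h1 : symbol p a c = 0 := by
      have : symbol p a c ∈ symbols p H := AddSubgroup.subset_closure ⟨a, ha, c, hc, rfl⟩
      rwa [hbot, AddSubgroup.mem_bot] at this
    have h2 := horth a ha k hk
    rw [symbol_eq_zero] at h1 h2 ⊢
    have e : cls p (c * k) = cls p c + cls p k := rfl
    rw [e, TensorProduct.tmul_add]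
    exact add_mem h1 h2
  have hsymm : ∀ a b : Fˣ, symbol p a b = 0 → symbol p b a = 0 := by
    intro a b hab
    rw [symbol_eq_zero] at hab ⊢
    obtain ⟨φ, hcls, hsurj, hk⟩ := exists_phi F p
    have hneg : φ (-1) = 1 := (hk (-1)).2 ⟨-1, hodd.neg_one_pow.symm⟩
    have hSt : St φ = steinberg F p := by
      unfold St steinberg
      simp only [hcls]
    have h1 := st_symm hsurj hneg (φ a) (φ b)
    rw [hSt, hcls, hcls] at h1
    have h2 := sub_mem h1 hab
    rwa [add_sub_cancel_left] at h2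
  intro H K hS
  obtain ⟨hsup, hinf, horth, hdisj⟩ := hS
  have hfin : Finite (K2 F p) := Nat.finite_of_card_ne_zero (by rw [hcard]; exact hp.ne_zero)
  have h1 : Nat.card (symbols p H) ∣ p := by
    have := AddSubgroup.card_addSubgroup_dvd_card (symbols p H)
    rwa [hcard] at this
  rcases (Nat.dvd_prime hp).1 h1 with h2 | h2
  · left
    refine le_antisymm (key H K hsup horth (AddSubgroup.eq_bot_of_card_eq _ h2)) ?_
    rw [← hinf]
    exact inf_le_left
  · right
    have h3 : symbols p H = ⊤ := by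
      apply AddSubgroup.eq_top_of_card_eq
      rw [h2, hcard]
    rw [h3, top_disjoint] at hdisj
    refine le_antisymm (key K H (by rw [sup_comm]; exact hsup)
      (fun k hk h hh => hsymm _ _ (horth h hh k hk)) hdisj) ?_
    rw [← hinf]
    exact inf_le_right

end

theorem result (p : ℕ) [Fact p.Prime] (hp2 : p ≠ 2) (F : Type) [Field F]
    (hζ : ∃ ζ : F, IsPrimitiveRoot ζ p)
    (hfin : (powers F p).index ≠ 0) (hne : powers F p ≠ ⊤) (hnd : Nondegenerate F p) :
    -- the indecomposable case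
    (Indecomposable F p → Conclusion p F) ∧
    -- in particular the Demushkin case
    (Nat.card (K2 F p) = p → Conclusion p F) :=
  ⟨indecomposable_case hp2 hζ hfin hne hnd,
    fun h => indecomposable_case hp2 hζ hfin hne hnd (indecomposable_of_card hp2 hnd h)⟩

end Pool.Agent.Results.MP_600e55_nt.IndecomposableSymbols
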