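import Mathlib
import Pool.Agent.Helper58.EU.Loc

set_option autoImplicit false

/-! # MP_600e55_nt: `K₂(F)/p` is the direct sum of its local parts

Let `p` be a prime and `F` a field with a primitive `p`-th root of unity such that `F*/F*^p` is
finite. **Theorem.** There are finitely many subgroups `T i` of `F*`, each of them the group of
local `p`-th powers for a valuation with a value not divisible by `p`, or (`p = 2`) the positive
cone of an ordering, such that `F*/rad` is the direct product of the groups `F*/T i`, where `rad` is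
the radical of the symbols, and `K₂(F)/p` is the direct sum of the groups `K₂(F)/(p, {T i, F*})`.
This is the `K`-theoretic form of the elementary type conjecture. -/

namespace Pool.Agent.Results.MP_600e55_nt.LocalStructure

open Pool.Agent.Y920.EP Pool.Agent.Helper58.EB Pool.Agent.Helper58.ET Pool.Agent.Helper58.EU
open scoped TensorProduct

/-- the group of `p`-th powers of `F*` -/
def powers (F : Type) [Field F] (p : ℕ) : Subgroup Fˣ := (powMonoidHom p : Fˣ →* Fˣ).range

/-- the group `F*/F*^p` -/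
def Classes (F : Type) [Field F] (p : ℕ) : Type := Fˣ ⧸ powers F p

instance instClasses (F : Type) [Field F] (p : ℕ) : CommGroup (Classes F p) :=
  inferInstanceAs (CommGroup (Fˣ ⧸ powers F p))

/-- the class of `a` in `F*/F*^p`, written additively -/
def cls {F : Type} [Field F] (p : ℕ) (a : Fˣ) : Additive (Classes F p) :=
  Additive.ofMul (QuotientGroup.mk a : Fˣ ⧸ powers F p)

/-- the Steinberg relations `{u, 1 - u} = 0` -/
def steinberg (F : Type) [Field F] (p : ℕ) :
    AddSubgroup (Additive (Classes F p) ⊗[ℤ] Additive (Classes F p)) :=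
  AddSubgroup.closure {x | ∃ u v : Fˣ, (u : F) + v = 1 ∧ x = cls p u ⊗ₜ[ℤ] cls p v}

/-- Milnor's group `K₂(F)/p` -/
abbrev K2 (F : Type) [Field F] (p : ℕ) : Type :=
  (Additive (Classes F p) ⊗[ℤ] Additive (Classes F p)) ⧸ steinberg F p

/-- the symbol `{a, b}` -/
def symbol {F : Type} [Field F] (p : ℕ) (a b : Fˣ) : K2 F p :=
  QuotientAddGroup.mk (cls p a ⊗ₜ[ℤ] cls p b)

/-- the subgroup of `K₂(F)/p` generated by the symbols `{t, a}` and `{a, t}` with `t` in `T` -/
def symbols {F : Type} [Field F] (p : ℕ) (T : Subgroup Fˣ) : AddSubgroup (K2 F p) :=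
  AddSubgroup.closure {x | ∃ t ∈ T, ∃ a : Fˣ, x = symbol p t a ∨ x = symbol p a t}

/-- `t` is a `p`-th power times `1 + x` with `v x < r` -/
def IsLocalPower {F : Type} [Field F] (p : ℕ) (O : ValuationSubring F) (r : O.ValueGroup)
    (t : Fˣ) : Prop :=
  ∃ (f : Fˣ) (x : F), O.valuation x < r ∧ (t : F) = (f : F) ^ p * (1 + x)

/-- `T` is the group of local `p`-th powers of a valuation `v` with `v p = 1`, and there is an
element whose value is not divisible by `p` -/
def IsTame {F : Type} [Field F] (p : ℕ) (T : Subgroup Fˣ) : Prop :=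
  ∃ O : ValuationSubring F, O.valuation (p : F) = 1 ∧
    (∀ t : Fˣ, t ∈ T ↔ IsLocalPower p O 1 t) ∧
    ∃ c : Fˣ, ∀ f : Fˣ, O.valuation ((c * f ^ p : Fˣ) : F) ≠ 1

/-- `T` is the group of local `p`-th powers of a valuation `v` with `v p < 1` such that every
element of the maximal ideal has a power divisible by `p`, and there is an element whose value is
bounded by powers of `v p` and is not divisible by `p` -/
def IsWild {F : Type} [Field F] (p : ℕ) (ζ : F) (T : Subgroup Fˣ) : Prop :=
  ∃ O : ValuationSubring F, O.valuation (p : F) < 1 ∧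
    (∀ f : F, O.valuation f < 1 → ∃ j : ℕ, O.valuation f ^ j ≤ O.valuation (p : F)) ∧
    (∀ t : Fˣ, t ∈ T ↔ IsLocalPower p O (O.valuation (1 - ζ) ^ p) t) ∧
    ∃ c : Fˣ, (∃ j : ℕ, O.valuation (p : F) ^ j ≤ O.valuation (c : F) ∧
      O.valuation (p : F) ^ j * O.valuation (c : F) ≤ 1) ∧
      ∀ f : Fˣ, O.valuation ((c * f ^ p : Fˣ) : F) ≠ 1

/-- `T` is the set of positive elements of an ordering of the field -/
def IsPositiveCone {F : Type} [Field F] (T : Subgroup Fˣ) : Prop :=
  -1 ∉ T ∧ (∀ u : Fˣ, u ∈ T ∨ -u ∈ T) ∧ ∀ u ∈ T, ∀ v ∈ T, ∃ z ∈ T, (z : F) = u + v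

lemma mem_powers {F : Type} [Field F] {p : ℕ} {a : Fˣ} :
    a ∈ powers F p ↔ ∃ b : Fˣ, a = b ^ p := by
  constructor
  · rintro ⟨b, rfl⟩
    exact ⟨b, rfl⟩
  · rintro ⟨b, rfl⟩
    exact ⟨b, rfl⟩

lemma exists_phi (F : Type) [Field F] (p : ℕ) : ∃ φ : Fˣ →* Classes F p,
    (∀ a : Fˣ, Additive.ofMul (φ a) = cls p a) ∧ Function.Surjective φ ∧
      ∀ u : Fˣ, φ u = 1 ↔ ∃ c : Fˣ, u = c ^ p := by
  refine ⟨QuotientGroup.mk' (powers F p), fun _ => rfl, ?_, ?_⟩
  · intro b
    obtain ⟨a, ha⟩ := QuotientGroup.mk_surjective (s := powers F p) b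
    exact ⟨a, ha⟩
  · intro u
    rw [← mem_powers]
    exact QuotientGroup.eq_one_iff u

/-- **Theorem.** The structure of `F*/F*^p` and `K₂(F)/p`. -/
theorem result (p : ℕ) [Fact p.Prime] (F : Type) [Field F] (ζ : F) (hζ : IsPrimitiveRoot ζ p)
    (hfin : (powers F p).index ≠ 0) :
    ∃ (I : Type) (_ : Finite I) (T : I → Subgroup Fˣ),
      (∀ i, IsTame p (T i) ∨ IsWild p ζ (T i) ∨ (p = 2 ∧ IsPositiveCone (T i))) ∧
      (∀ t : Fˣ, (∀ i, t ∈ T i) ↔ ∀ b : Fˣ, symbol p t b = 0) ∧
      (∀ u : I → Fˣ, ∃ y : Fˣ, ∀ i, y / u i ∈ T i) ∧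
      Function.Bijective fun (x : K2 F p) (i : I) =>
        (QuotientAddGroup.mk x : K2 F p ⧸ symbols p (T i)) := by
  classical
  have hp : p.Prime := Fact.out
  have hζ0 : ζ ≠ 0 := hζ.ne_zero hp.ne_zero
  have hζ' : IsPrimitiveRoot (Units.mk0 ζ hζ0) p := by
    rw [← IsPrimitiveRoot.coe_units_iff]
    exact hζ
  have hfin' : Finite (Classes F p) := Nat.finite_of_card_ne_zero hfin
  obtain ⟨φ, hcls, hsurj, hk⟩ := exists_phi F p
  have hSt : St φ = steinberg F p := by
    unfold St steinberg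
    simp only [hcls]
  obtain ⟨I, hI, T, h0, h1, h2, h3, h4⟩ := top2 hsurj hζ' hk
  have hsym0 : ∀ a b : Fˣ, symbol p a b = 0 ↔
      Additive.ofMul (φ a) ⊗ₜ[ℤ] Additive.ofMul (φ b) ∈ St φ := by
    intro a b
    rw [hcls, hcls, hSt]
    exact QuotientAddGroup.eq_zero_iff _
  let q : Additive (Classes F p) ⊗[ℤ] Additive (Classes F p) →+ K2 F p :=
    QuotientAddGroup.mk' (steinberg F p)
  have hq0 : ∀ x, q x = 0 ↔ x ∈ St φ := fun x => by
    rw [hSt]
    exact QuotientAddGroup.eq_zero_iff x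
  have hqs : ∀ a b : Fˣ, q (Additive.ofMul (φ a) ⊗ₜ[ℤ] Additive.ofMul (φ b)) = symbol p a b :=
    fun a b => by
      rw [hcls, hcls]
      rfl
  have hqsurj : Function.Surjective q := QuotientAddGroup.mk'_surjective _
  have hloc : ∀ i, symbols p (T i) ≤ (Lt ((T i).map φ)).map q := by
    intro i
    unfold symbols
    rw [AddSubgroup.closure_le]
    rintro _ ⟨t, ht, a, rfl | rfl⟩
    · exact ⟨_, AddSubgroup.subset_closure ⟨φ t, ⟨t, ht, rfl⟩, φ a, Or.inl rfl⟩, hqs t a⟩
    · exact ⟨_, AddSubgroup.subset_closure ⟨φ t, ⟨t, ht, rfl⟩, φ a, Or.inr rfl⟩, hqs a t⟩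
  refine ⟨I, hI, T, ?_, ?_, h1, ?_, ?_⟩
  · intro i
    rcases h4 i with ⟨O, hO⟩ | ⟨O, hO⟩ | ⟨hp2, hO⟩
    · exact Or.inl ⟨O, hO.pv, hO.mem, hO.nu⟩
    · refine Or.inr (Or.inl ⟨O, hO.pv, hO.arch, hO.mem, ?_⟩)
      obtain ⟨c, ⟨⟨j, hj⟩, ⟨k, hk⟩⟩, hc⟩ := hO.nu
      refine ⟨c, ⟨j + k, ?_, ?_⟩, hc⟩
      · rw [pow_add]
        refine le_trans ?_ hj
        exact mul_le_of_le_one_right' (pow_le_one' hO.pv.le k)
      · rw [pow_add, mul_assoc]
        exact mul_le_one' (pow_le_one' hO.pv.le j) hk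
    · refine Or.inr (Or.inr ⟨hp2, hO.neg, hO.tot, fun u hu v hv => ?_⟩)
      obtain ⟨z, hz, hz1⟩ := hO.add (v / u) (div_mem hv hu)
      refine ⟨u * z, mul_mem hu hz1, ?_⟩
      have hu0 : (u : F) ≠ 0 := u.ne_zero
      rw [Units.val_mul, hz, Units.val_div_eq_div_val]
      field_simp
  · intro t
    rw [h2 t, mem_Rad]
    constructor
    · intro h b
      rw [hsym0]
      exact h _
    · intro h b
      obtain ⟨b, rfl⟩ := hsurj b
      rw [← hsym0]
      exact h b
  · -- injectivity
    intro x y hxy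
    rw [← sub_eq_zero]
    obtain ⟨z, hz⟩ := hqsurj (x - y)
    rw [← hz, hq0]
    apply h3
    intro i
    have h5 : x - y ∈ symbols p (T i) := by
      have := congrFun hxy i
      rw [← neg_sub]
      rw [QuotientAddGroup.eq] at this
      have h6 := neg_mem this
      rw [neg_add, neg_neg, ← sub_eq_add_neg] at h6
      rw [neg_sub]
      exact h6
    obtain ⟨w, hw, hwz⟩ := hloc i h5
    rw [← hz] at hwz
    have h6 : z - w ∈ St φ := by
      rw [← hq0, map_sub, hwz, sub_self]
    rw [← sub_add_cancel z w]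
    exact add_mem (AddSubgroup.mem_sup_left h6) (AddSubgroup.mem_sup_right hw)
  · -- surjectivity
    have _ := Fintype.ofFinite I
    let f : K2 F p →+ ((i : I) → K2 F p ⧸ symbols p (T i)) :=
      { toFun := fun x i => QuotientAddGroup.mk x
        map_zero' := rfl
        map_add' := fun x y => rfl }
    have hf : ∀ i : I, ∀ x : K2 F p,
        Pi.single i (QuotientAddGroup.mk x : K2 F p ⧸ symbols p (T i)) ∈ f.range := by
      intro i x
      obtain ⟨z, rfl⟩ := hqsurj x
      induction z using TensorProduct.induction_on with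
      | zero =>
        rw [map_zero, QuotientAddGroup.mk_zero, Pi.single_zero]
        exact zero_mem _
      | tmul a b =>
        obtain ⟨a₀, ha₀⟩ := hsurj (Additive.toMul a)
        obtain ⟨b₀, hb₀⟩ := hsurj (Additive.toMul b)
        have ea : a = Additive.ofMul (φ a₀) := by rw [ha₀]; rfl
        have eb : b = Additive.ofMul (φ b₀) := by rw [hb₀]; rfl
        obtain ⟨a', ha'⟩ := h1 (Function.update (fun _ => 1) i a₀)
        rw [ea, eb, hqs]
        refine ⟨symbol p a' b₀, ?_⟩
        ext j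
        by_cases hj : j = i
        · subst hj
          rw [Pi.single_eq_same]
          change (QuotientAddGroup.mk (symbol p a' b₀) : K2 F p ⧸ symbols p (T j)) = _
          rw [eq_comm, QuotientAddGroup.eq, neg_add_eq_sub]
          have h5 := ha' j
          rw [Function.update_self] at h5
          have h6 : symbol p a' b₀ - symbol p a₀ b₀ = symbol p (a' / a₀) b₀ := by
            rw [← hqs, ← hqs, ← hqs, ← map_sub, ← TensorProduct.sub_tmul, ← ofMul_div, ← map_div]
          rw [h6]
          exact AddSubgroup.subset_closure ⟨_, h5, b₀, Or.inl rfl⟩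
        · rw [Pi.single_eq_of_ne hj]
          change (QuotientAddGroup.mk (symbol p a' b₀) : K2 F p ⧸ symbols p (T j)) = 0
          rw [QuotientAddGroup.eq_zero_iff]
          have h5 := ha' j
          rw [Function.update_of_ne hj, div_one] at h5
          exact AddSubgroup.subset_closure ⟨a', h5, b₀, Or.inl rfl⟩
      | add a b ha hb =>
        rw [map_add, QuotientAddGroup.mk_add, Pi.single_add]
        exact add_mem ha hb
    intro x
    choose y hy using fun i => QuotientAddGroup.mk_surjective (x i)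
    have h5 : x ∈ f.range := by
      rw [← Finset.univ_sum_single x]
      refine sum_mem fun i _ => ?_
      rw [← hy i]
      exact hf i (y i)
    exact h5

end Pool.Agent.Results.MP_600e55_nt.LocalStructure
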