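import Mathlib
import Pool.Agent.Helper58.EB.Main
import Pool.Graph.R_seed8.Y349.EP.Symm
import Pool.Graph.R_seed8.Y349.EP.NG

set_option autoImplicit false

/-! # MP_600e55_nt: Efrat's conjecture for fields with small balls of radius two, `p` odd

Let `p` be an odd prime, `F` a field with a primitive `p`-th root of unity and `T = F*^p`; no
finiteness of `F*/T` is assumed. Let `N(a)` be the norm group of `F(a^(1/p))`. The elements of
`F*/T` are the vertices of a graph in which `a` and `b` are joined if `b ∈ N(a)`, that is, if the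
symbol `{a, b}` is zero in `K₂(F)/p`.

**Theorem.** If, for all `a ∉ T`, at most `M` classes `b` have distance at most two from `a` (along
nontrivial classes), then there is a valuation ring `O` with `p ∈ O*`, `1 + m ⊆ T` and at most
`38 M + 1` classes of units. So, if `F*/T` has more than `38 M + 1` elements, then the maximal
pro-`p` Galois group is the decomposition group of a valuation with nontrivial inertia, and the
conclusion of Q1 holds. In particular, if all `N(a)` have at most `N` classes, then at most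
`38 N² + 1` classes suffice.

There is a version for the values of the forms `x ^ p + a y ^ p`. -/

namespace Pool.Agent.Results.MP_600e55_nt.RadiusTwoBalls

open Pool.Agent.Y920.EP Pool.Agent.Helper58.EB

/-- the group `T` of `p`-th powers of `F*` -/
def powers (F : Type) [Field F] (p : ℕ) : Subgroup Fˣ := (powMonoidHom p : Fˣ →* Fˣ).range

open Polynomial in
/-- the norms to `F` of the units of the algebra `F[X]/(X^p - a)`: the norm group of the field
`F(a^(1/p))` if `a` is not a `p`-th power -/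
noncomputable def normGroup {F : Type} [Field F] (p : ℕ) (a : Fˣ) : Subgroup Fˣ :=
  (Units.map (Algebra.norm F : AdjoinRoot (X ^ p - C (a : F)) →* F)).range

/-- the classes `b` of `F*/T` of distance at most two from `a`: `b` is trivial, or some `g ∉ T` lies
both in the norm group of `a` and in the norm group of `b` -/
def normBall {F : Type} [Field F] (p : ℕ) (a : Fˣ) : Set (Fˣ ⧸ powers F p) :=
  {β | β = 1 ∨ ∃ b g : Fˣ, (b : Fˣ ⧸ powers F p) = β ∧ g ∉ powers F p ∧
    g ∈ normGroup p a ∧ g ∈ normGroup p b}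

/-- the classes in `F*/T` of the nonzero values of the form `x ^ p + a y ^ p` -/
def valueClasses {F : Type} [Field F] (p : ℕ) (a : Fˣ) : Set (Fˣ ⧸ powers F p) :=
  {γ | ∃ (c : Fˣ) (x y : F), (c : F) = x ^ p + a * y ^ p ∧ (c : Fˣ ⧸ powers F p) = γ}

/-- the classes `b` of `F*/T` such that `b` is trivial or `x ^ p + b y ^ p` has a value which lies
in the class of the quotient of two values of `x ^ p + a y ^ p` of different classes -/
def valueBall {F : Type} [Field F] (p : ℕ) (a : Fˣ) : Set (Fˣ ⧸ powers F p) :=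
  {β | β = 1 ∨ ∃ (b : Fˣ) (γ δ : Fˣ ⧸ powers F p), (b : Fˣ ⧸ powers F p) = β ∧
    γ ∈ valueClasses p a ∧ δ ∈ valueClasses p a ∧ γ ≠ δ ∧ γ / δ ∈ valueClasses p b}

/-- `K` is the compositum of the finite Galois extensions of `F` of `p`-power degree -/
def IsMaximalPExtension (p : ℕ) {F : Type} [Field F]
    (K : IntermediateField F (AlgebraicClosure F)) : Prop :=
  K = sSup {L : IntermediateField F (AlgebraicClosure F) |
    FiniteDimensional F L ∧ IsGalois F L ∧ ∃ k : ℕ, Module.finrank F L = p ^ k}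

/-- a valuation ring with at most `B` classes of units in which `p` is a unit and whose one-units
are `p`-th powers -/
def HasRing (p : ℕ) (F : Type) [Field F] (B : ℕ) : Prop :=
  ∃ O : ValuationSubring F,
    (powers F p).relIndex (O.unitGroup ⊔ powers F p) ≠ 0 ∧
    (powers F p).relIndex (O.unitGroup ⊔ powers F p) ≤ B ∧
    (p : F)⁻¹ ∈ O ∧ ∀ x : F, x ∈ O → x⁻¹ ∉ O → ∃ y : F, y ^ p = 1 + x

/-- the subgroup `H` of `Gal(K/F)` is the decomposition group of a valuation of `K`, with nontrivial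
inertia -/
def IsDecompositionGroup {F K : Type} [Field F] [Field K] [Algebra F K]
    (H : Subgroup (K ≃ₐ[F] K)) : Prop :=
  ∃ (Γ : Type) (_ : LinearOrderedCommGroupWithZero Γ) (w : Valuation K Γ),
    (∀ σ : K ≃ₐ[F] K, σ ∈ H ↔ ∀ x : K, (w (σ x) ≤ 1 ↔ w x ≤ 1)) ∧
    ∃ σ ∈ H, σ ≠ 1 ∧ ∀ x : K, w x ≤ 1 → w (σ x - x) < 1

/-- `G` is the free pro-`p` product of the closed subgroups `H i` -/
def IsFreeProduct (p : ℕ) {G : Type} [Group G] [TopologicalSpace G] {n : ℕ}
    (H : Fin n → Subgroup G) : Prop :=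
  (∀ i, IsClosed (H i : Set G)) ∧
  ∀ (P : Type) [Group P] [Finite P], (∃ k : ℕ, Nat.card P = p ^ k) →
    ∀ φ : (i : Fin n) → (H i →* P), (∀ i, IsOpen ((φ i).ker : Set (H i))) →
      ∃! ψ : G →* P, IsOpen (ψ.ker : Set G) ∧ ∀ i, ∀ x : H i, ψ (x : G) = φ i x

/-- the conclusion of Q1 for `Gal(K/F)` -/
def ElementaryType (p : ℕ) [Fact p.Prime] (F K : Type) [Field F] [Field K] [Algebra F K] : Prop :=
  ∃ (n : ℕ) (H : Fin n → Subgroup (K ≃ₐ[F] K)), IsFreeProduct p H ∧
    ∀ i, Nonempty (H i ≃ₜ* Multiplicative (PadicInt p)) ∨ IsDecompositionGroup (H i) ∨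
      (p = 2 ∧ Nat.card (H i) = 2)

/-- The conclusion with the bound `B`: there is a valuation ring with at most `B` classes of units,
and, if `F*/T` is infinite or has more than `B` elements, the maximal pro-`p` Galois group is the
decomposition group of a valuation with nontrivial inertia and satisfies the conclusion of Q1. -/
def Conclusion (p : ℕ) [Fact p.Prime] (F : Type) [Field F] (B : ℕ) : Prop :=
  HasRing p F B ∧
  ((powers F p).index = 0 ∨ B < (powers F p).index →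
    ∀ K : IntermediateField F (AlgebraicClosure F), IsMaximalPExtension p K →
      IsDecompositionGroup (⊤ : Subgroup (K ≃ₐ[F] K)) ∧ ElementaryType p F K)

section

variable {F : Type} [Field F] {p : ℕ}

lemma mem_powers {a : Fˣ} : a ∈ powers F p ↔ ∃ b : Fˣ, a = b ^ p := mem_pwG

lemma conclusion_mono [Fact p.Prime] {B C : ℕ} (h : B ≤ C) (hB : Conclusion p F B) :
    Conclusion p F C := by
  obtain ⟨⟨O, h1, h2, h3⟩, h4⟩ := hB
  exact ⟨⟨O, h1, h2.trans h, h3⟩, fun h5 => h4 (h5.imp id fun h6 => lt_of_le_of_lt h h6)⟩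

/-- the Galois-theoretic part -/
lemma conclusion_of [Fact p.Prime] (hp2 : p ≠ 2) (hζ : ∃ ζ : F, IsPrimitiveRoot ζ p) (B : ℕ)
    (h : ∃ O : ValuationSubring F,
      (powers F p).relIndex (O.unitGroup ⊔ powers F p) ≠ 0 ∧
      (powers F p).relIndex (O.unitGroup ⊔ powers F p) ≤ B ∧ Pw p O) :
    Conclusion p F B := by
  have hp : p.Prime := Fact.out
  have hG : AllG := ⟨Pool.Agent.Y86.EP.t_KUM, Pool.Agent.Y279.EP.t_UP,
    Pool.Agent.Y925.EP.t_TOWER', Pool.Agent.Y419.EP.t_INERT', Pool.Agent.Y469.EP.t_MAX'⟩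
  obtain ⟨O, h2, h3, h5⟩ := h
  obtain ⟨U, hUd⟩ : ∃ U, U = O.unitGroup ⊔ powers F p := ⟨_, rfl⟩
  rw [← hUd] at h2 h3
  refine ⟨⟨O, by rw [← hUd]; exact h2, by rw [← hUd]; exact h3, h5.1, h5.2.2⟩, ?_⟩
  intro hbig K hK
  have hU : ∃ c : Fˣ, c ∉ U := by
    by_contra hc
    push Not at hc
    have : U = ⊤ := by
      rw [eq_top_iff]
      exact fun c _ => hc c
    rw [this, Subgroup.relIndex_top_right] at h2 h3
    rcases hbig with h | h
    · exact h2 h
    · exact absurd h3 (not_le.2 h)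
  obtain ⟨c, hc⟩ := hU
  have hD : DecInert F K := decInert hG p hp hp2 F hζ O h5 ⟨c, ?_⟩ K hK
  · refine ⟨?_, ?_⟩
    · obtain ⟨Γ, iΓ, w, hw, σ, hσ, hi⟩ := hD
      exact ⟨Γ, iΓ, w, fun τ => ⟨fun _ x => hw τ x, fun _ => Subgroup.mem_top τ⟩, σ,
        Subgroup.mem_top σ, hσ, hi⟩
    · obtain ⟨n, H, h1, h2, h3⟩ := efratP p F K hD
      exact ⟨n, H, ⟨h1, h2⟩, h3⟩
  · rintro f ⟨h6, h7⟩
    apply hc
    have h8 : c * f ^ p ∈ O.unitGroup := by
      rw [ValuationSubring.mem_unitGroup_iff]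
      refine le_antisymm ((ValuationSubring.valuation_le_one_iff _ _).2 h6) ?_
      have h9 := (ValuationSubring.valuation_le_one_iff O _).2 h7
      rw [Units.val_inv_eq_inv_val, map_inv₀] at h9
      have h10 : O.valuation ((c * f ^ p : Fˣ) : F) ≠ 0 := by
        rw [Valuation.ne_zero_iff]
        exact Units.ne_zero _
      exact (inv_le_one₀ (zero_lt_iff.2 h10)).1 h9
    have h11 : f ^ p ∈ U := by
      rw [hUd]
      exact Subgroup.mem_sup_right ⟨f, rfl⟩
    have h12 : c * f ^ p ∈ U := by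
      rw [hUd]
      exact Subgroup.mem_sup_left h8
    have h13 := mul_mem h12 (inv_mem h11)
    rwa [mul_inv_cancel_right] at h13

/-- from balls to valuation rings -/
lemma ring_of_ball [Fact p.Prime] (hp2 : p ≠ 2) (hζ : ∃ ζ : F, IsPrimitiveRoot ζ p) {M : ℕ}
    {A : Type} [CommGroup A] {φ : Fˣ →* A} (hφ : Function.Surjective φ) (hker : φ.ker = powers F p)
    (hB : Ball φ M) :
    ∃ O : ValuationSubring F,
      (powers F p).relIndex (O.unitGroup ⊔ powers F p) ≠ 0 ∧
      (powers F p).relIndex (O.unitGroup ⊔ powers F p) ≤ max p (38 * M + 1) ∧ Pw p O := by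
  have hp : p.Prime := Fact.out
  have hodd : Odd p := hp.odd_of_ne_two hp2
  obtain ⟨ζ, hζ⟩ := hζ
  have hζ0 : ζ ≠ 0 := hζ.ne_zero hp.ne_zero
  have hζ' : IsPrimitiveRoot (Units.mk0 ζ hζ0) p := by
    rw [← IsPrimitiveRoot.coe_units_iff]
    exact hζ
  have hpF : (p : F) ≠ 0 := by
    have : NeZero p := ⟨hp.ne_zero⟩
    exact hζ.neZero'.ne
  have hk : ∀ u : Fˣ, φ u = 1 ↔ ∃ c : Fˣ, u = c ^ p := by
    intro u
    rw [← MonoidHom.mem_ker, hker, mem_powers]
  obtain ⟨O, h1, h2, h3⟩ := main hp hp2 hζ' ((hk (-1)).2 ⟨-1, hodd.neg_one_pow.symm⟩) hB hk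
  have e : (powers F p).relIndex (O.unitGroup ⊔ powers F p) = Nat.card (AU φ O) := by
    rw [← hker, Subgroup.relIndex_ker, ← Subgroup.comap_map_eq,
      Subgroup.map_comap_eq_self_of_surjective hφ]
  refine ⟨O, ?_, ?_, (pv_iff O hpF).1 h1.pv, hpF, ?_⟩
  · rw [e]
    exact Nat.card_ne_zero.2 ⟨⟨1⟩, h2⟩
  · rw [e]
    exact h3
  · intro x hx hx'
    obtain ⟨t, ht, ht1⟩ := h1.cmp x ((lt_one_iff O).2 (Or.inr hx'))
    rw [hk] at ht1
    obtain ⟨b, rfl⟩ := ht1
    exact ⟨b, by rw [← ht, Units.val_pow_eq_pow_val]⟩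

/-- the class of an element -/
lemma mk_pow (u : Fˣ) : ((u ^ p : Fˣ) : Fˣ ⧸ powers F p) = 1 := by
  rw [QuotientGroup.eq_one_iff]
  exact ⟨u, rfl⟩

lemma mk_eq_iff (u v : Fˣ) :
    (u : Fˣ ⧸ powers F p) = v ↔ ∃ t : Fˣ, v = u * t ^ p := by
  rw [QuotientGroup.eq, mem_powers]
  constructor
  · rintro ⟨t, ht⟩
    exact ⟨t, by rw [← ht, mul_inv_cancel_left]⟩
  · rintro ⟨t, rfl⟩
    exact ⟨t, by rw [inv_mul_cancel_left]⟩

/-- the values of the binary forms -/
lemma vv_value (hp : p.Prime) {A : Type} [CommGroup A] {φ : Fˣ →* A}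
    (hk : ∀ u : Fˣ, φ u = 1 ↔ ∃ c : Fˣ, u = c ^ p) (a c : Fˣ)
    (h : φ c ∈ Vv φ (φ a)) : (c : Fˣ ⧸ powers F p) ∈ valueClasses p a := by
  have hφ : ∀ u v : Fˣ, φ u = φ v → (u : Fˣ ⧸ powers F p) = v := by
    intro u v h
    rw [mk_eq_iff]
    have h1 : φ (v / u) = 1 := by rw [map_div, h, div_self']
    obtain ⟨t, ht⟩ := (hk _).1 h1
    exact ⟨t, by rw [← ht, mul_div_cancel]⟩
  rcases h with h | h | ⟨u, v, hu, huv, hv⟩
  · exact ⟨1, 1, 0, by simp [hp.ne_zero], hφ _ _ (by rw [h, map_one])⟩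
  · exact ⟨a, 0, 1, by simp [hp.ne_zero], hφ _ _ h.symm⟩
  · obtain ⟨y, hy⟩ := (mk_eq_iff a u).1 (hφ _ _ hu.symm)
    refine ⟨v, 1, y, ?_, hφ _ _ hv⟩
    rw [huv, hy, one_pow, Units.val_mul, Units.val_pow_eq_pow_val]

/-- the balls defined by values -/
lemma ball_of_value (hp : p.Prime) {M : ℕ}
    (hM : ∀ a : Fˣ, a ∉ powers F p → (valueBall p a).Finite ∧ (valueBall p a).ncard ≤ M)
    {A : Type} [CommGroup A] {φ : Fˣ →* A} (hφ : Function.Surjective φ)
    (hker : φ.ker = powers F p) : Ball φ M := by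
  classical
  have hk : ∀ u : Fˣ, φ u = 1 ↔ ∃ c : Fˣ, u = c ^ p := by
    intro u
    rw [← MonoidHom.mem_ker, hker, mem_powers]
  obtain ⟨f, hf⟩ : ∃ f : Fˣ ⧸ powers F p →* A, ∀ x : Fˣ, f (x : Fˣ ⧸ powers F p) = φ x :=
    ⟨QuotientGroup.lift (powers F p) φ fun x hx => (hk x).2 (mem_powers.1 hx), fun x => rfl⟩
  intro α hα
  obtain ⟨a, rfl⟩ := hφ α
  have ha : a ∉ powers F p := by
    rw [← hker, MonoidHom.mem_ker]
    exact hα
  obtain ⟨h1, h2⟩ := hM a ha
  refine ⟨h1.toFinset.image f, ?_, ?_, ?_⟩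
  · refine Finset.card_image_le.trans ?_
    rw [← Set.ncard_eq_toFinset_card _ h1]
    exact h2
  · rw [Finset.mem_image]
    exact ⟨1, by rw [Set.Finite.mem_toFinset]; exact Or.inl rfl, map_one f⟩
  · intro β γ δ hγ hδ hne hb
    obtain ⟨b, rfl⟩ := hφ β
    obtain ⟨c, rfl⟩ := hφ γ
    obtain ⟨d, rfl⟩ := hφ δ
    rw [Finset.mem_image]
    refine ⟨b, ?_, hf b⟩
    rw [Set.Finite.mem_toFinset]
    rw [← map_div] at hb
    refine Or.inr ⟨b, c, d, rfl, vv_value hp hk a c hγ, vv_value hp hk a d hδ, ?_,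
      vv_value hp hk b _ hb⟩
    intro e
    apply hne
    rw [← hf, ← hf, e]

/-- `a` is a norm -/
lemma self_norm (hp : p.Prime) (hp2 : p ≠ 2) (a : Fˣ) : a ∈ normGroup p a := by
  have hodd : Odd p := hp.odd_of_ne_two hp2
  have h1 := Pool.Agent.Y349.EP.norm_sub_root (F := F) (p := p) hp.pos (a : F) 0
  have h2 := Pool.Agent.Y349.EP.root_pow (F := F) (p := p) (a : F)
  have h3 : IsUnit (AdjoinRoot.root (Polynomial.X ^ p - Polynomial.C (a : F))) := by
    have h4 : IsUnit ((AdjoinRoot.root (Polynomial.X ^ p - Polynomial.C (a : F))) ^ p) := by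
      rw [h2]
      exact a.isUnit.map _
    exact (isUnit_pow_iff hp.ne_zero).1 h4
  have h5 : Algebra.norm F (AdjoinRoot.root (Polynomial.X ^ p - Polynomial.C (a : F))) = a := by
    have h6 : Algebra.norm F (algebraMap F (AdjoinRoot (Polynomial.X ^ p -
        Polynomial.C (a : F))) (-1)) = -1 := by
      rw [Pool.Agent.Y349.EP.norm_scalar hp.pos, hodd.neg_one_pow]
    have h7 : AdjoinRoot.root (Polynomial.X ^ p - Polynomial.C (a : F)) =
        algebraMap F (AdjoinRoot (Polynomial.X ^ p - Polynomial.C (a : F))) (-1) *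
        (algebraMap F (AdjoinRoot (Polynomial.X ^ p - Polynomial.C (a : F))) 0 -
          AdjoinRoot.root _) := by
      rw [map_neg, map_one, map_zero]
      ring
    rw [h7, map_mul, h1, h6, zero_pow hp.ne_zero]
    ring
  refine ⟨h3.unit, ?_⟩
  ext
  exact h5

lemma pow_norm (hp : p.Prime) (hp2 : p ≠ 2) (a u : Fˣ) : u ^ p ∈ normGroup p a :=
  (Pool.Agent.Y349.EP.t_NG p hp hp2 F).1 a u

/-- values are norms -/
lemma value_norm (hp : p.Prime) (hp2 : p ≠ 2) (a c : Fˣ)
    (h : (c : Fˣ ⧸ powers F p) ∈ valueClasses p a) : c ∈ normGroup p a := by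
  obtain ⟨h1, h2, h3⟩ := Pool.Agent.Y349.EP.t_NG p hp hp2 F
  obtain ⟨d, x, y, hd, hdc⟩ := h
  obtain ⟨t, rfl⟩ := (mk_eq_iff d c).1 hdc
  refine mul_mem ?_ (pow_norm hp hp2 a t)
  by_cases hx : x = 0
  · have hy : y ≠ 0 := by
      rintro rfl
      rw [hx, zero_pow hp.ne_zero, zero_add, mul_zero] at hd
      exact d.ne_zero hd
    have e : d = a * (Units.mk0 y hy) ^ p := by
      ext
      rw [hd, hx, zero_pow hp.ne_zero, zero_add, Units.val_mul, Units.val_pow_eq_pow_val,
        Units.val_mk0]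
    rw [e]
    exact mul_mem (self_norm hp hp2 a) (pow_norm hp hp2 a _)
  by_cases hy : y = 0
  · have e : d = (Units.mk0 x hx) ^ p := by
      ext
      rw [hd, hy, zero_pow hp.ne_zero, mul_zero, add_zero, Units.val_pow_eq_pow_val,
        Units.val_mk0]
    rw [e]
    exact pow_norm hp hp2 a _
  · have h4 := h2 (a * (Units.mk0 y hy / Units.mk0 x hx) ^ p) (d / (Units.mk0 x hx) ^ p) (by
      rw [Units.val_div_eq_div_val, Units.val_pow_eq_pow_val, Units.val_mul,
        Units.val_pow_eq_pow_val, Units.val_div_eq_div_val, Units.val_mk0, Units.val_mk0, hd,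
        div_pow]
      have hxp : x ^ p ≠ 0 := pow_ne_zero _ hx
      field_simp)
    rw [h3 a] at h4
    have h5 := mul_mem h4 (pow_norm hp hp2 a (Units.mk0 x hx))
    rwa [div_mul_cancel] at h5

lemma value_sub_norm (hp : p.Prime) (hp2 : p ≠ 2) (a : Fˣ) :
    valueBall p a ⊆ normBall p a := by
  rintro β (h | ⟨b, γ, δ, rfl, hγ, hδ, hne, hb⟩)
  · exact Or.inl h
  obtain ⟨c, rfl⟩ := QuotientGroup.mk_surjective γ
  obtain ⟨d, rfl⟩ := QuotientGroup.mk_surjective δ
  rw [← QuotientGroup.mk_div] at hb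
  refine Or.inr ⟨b, c / d, rfl, ?_, ?_, value_norm hp hp2 b _ hb⟩
  · intro h
    apply hne
    rw [← QuotientGroup.eq_one_iff, QuotientGroup.mk_div, div_eq_one] at h
    exact h
  · exact div_mem (value_norm hp hp2 a c hγ) (value_norm hp hp2 a d hδ)

/-- the ball contains the powers of its centre -/
lemma prime_le_ball (hp : p.Prime) (hp2 : p ≠ 2) {a : Fˣ} (ha : a ∉ powers F p)
    (hf : (normBall p a).Finite) : p ≤ (normBall p a).ncard := by
  classical
  have hord : orderOf (a : Fˣ ⧸ powers F p) = p := by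
    have := orderOf_eq_prime_iff (x := (a : Fˣ ⧸ powers F p)) (p := p) (hp := ⟨hp⟩)
    rw [this]
    exact ⟨by rw [← QuotientGroup.mk_pow]; exact mk_pow a,
      fun h => ha ((QuotientGroup.eq_one_iff a).1 h)⟩
  have hinj := pow_injOn_Iio_orderOf (x := (a : Fˣ ⧸ powers F p))
  rw [hord] at hinj
  have hsub : (fun i : ℕ => (a : Fˣ ⧸ powers F p) ^ i) '' (Set.Iio p) ⊆ normBall p a := by
    rintro _ ⟨i, -, rfl⟩
    dsimp only
    by_cases h1 : (a : Fˣ ⧸ powers F p) ^ i = 1
    · exact Or.inl h1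
    · refine Or.inr ⟨a ^ i, a ^ i, by rw [QuotientGroup.mk_pow], ?_, ?_, self_norm hp hp2 _⟩
      · intro h
        apply h1
        rw [← QuotientGroup.mk_pow]
        exact (QuotientGroup.eq_one_iff _).2 h
      · exact pow_mem (self_norm hp hp2 a) i
  have h2 := Set.ncard_le_ncard hsub hf
  rw [hinj.ncard_image] at h2
  have h3 : (Set.Iio p).ncard = p := by
    rw [← Finset.coe_Iio, Set.ncard_coe_finset, Nat.card_Iio]
  rwa [h3] at h2

/-- the version for values -/
lemma value_version [Fact p.Prime] (hp2 : p ≠ 2) (hζ : ∃ ζ : F, IsPrimitiveRoot ζ p) (M : ℕ)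
    (hM : ∀ a : Fˣ, a ∉ powers F p → (valueBall p a).Finite ∧ (valueBall p a).ncard ≤ M) :
    Conclusion p F (max p (38 * M + 1)) := by
  have hp : p.Prime := Fact.out
  obtain ⟨A, _, φ, hφ, hker⟩ := exists_quot F (powers F p)
  exact conclusion_of hp2 hζ _ (ring_of_ball hp2 hζ hφ hker (ball_of_value hp hM hφ hker))

/-- the version for norms -/
lemma norm_version [Fact p.Prime] (hp2 : p ≠ 2) (hζ : ∃ ζ : F, IsPrimitiveRoot ζ p) (M : ℕ)
    (hM : ∀ a : Fˣ, a ∉ powers F p → (normBall p a).Finite ∧ (normBall p a).ncard ≤ M) :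
    Conclusion p F (38 * M + 1) := by
  have hp : p.Prime := Fact.out
  have hM' : ∀ a : Fˣ, a ∉ powers F p → (valueBall p a).Finite ∧ (valueBall p a).ncard ≤ M := by
    intro a ha
    obtain ⟨h1, h2⟩ := hM a ha
    exact ⟨h1.subset (value_sub_norm hp hp2 a),
      (Set.ncard_le_ncard (value_sub_norm hp hp2 a) h1).trans h2⟩
  by_cases hall : ∀ a : Fˣ, a ∈ powers F p
  · have htop : powers F p = ⊤ := by
      rw [eq_top_iff]
      exact fun a _ => hall a
    obtain ⟨A, _, φ, hφ, hker⟩ := exists_quot F (powers F p)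
    obtain ⟨O, h1, h2, h3⟩ := ring_of_ball hp2 hζ hφ hker (ball_of_value hp hM' hφ hker)
    refine conclusion_of hp2 hζ _ ⟨O, h1, ?_, h3⟩
    rw [htop, Subgroup.relIndex_top_left]
    omega
  · push Not at hall
    obtain ⟨a, ha⟩ := hall
    have h1 := (prime_le_ball hp hp2 ha (hM a ha).1).trans (hM a ha).2
    have h2 := value_version hp2 hζ M hM'
    rwa [max_eq_right (by omega)] at h2

/-- small norm groups have small balls -/
lemma ball_of_norm (hp : p.Prime) (hp2 : p ≠ 2) (hζ : ∃ ζ : F, IsPrimitiveRoot ζ p) {N : ℕ}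
    (hN : ∀ a : Fˣ, a ∉ powers F p →
      (powers F p).relIndex (normGroup p a) ≠ 0 ∧ (powers F p).relIndex (normGroup p a) ≤ N)
    (a : Fˣ) (ha : a ∉ powers F p) :
    (normBall p a).Finite ∧ (normBall p a).ncard ≤ N ^ 2 := by
  classical
  obtain ⟨ζ, hζ⟩ := hζ
  -- the classes of norms
  have hS : ∀ γ : Fˣ ⧸ powers F p, ∃ S : Finset (Fˣ ⧸ powers F p), S.card ≤ N ∧
      ∀ g : Fˣ, (g : Fˣ ⧸ powers F p) = γ → g ∉ powers F p → ∀ b : Fˣ, b ∈ normGroup p g →
        (b : Fˣ ⧸ powers F p) ∈ S := by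
    intro γ
    obtain ⟨g, rfl⟩ := QuotientGroup.mk_surjective γ
    by_cases hg : g ∈ powers F p
    · refine ⟨∅, by simp, fun g' hg' hg'' => ?_⟩
      exfalso
      apply hg''
      rw [← QuotientGroup.eq_one_iff, hg', QuotientGroup.eq_one_iff]
      exact hg
    obtain ⟨h1, h2⟩ := hN g hg
    have e : (powers F p).relIndex (normGroup p g) =
        Nat.card ((normGroup p g).map (QuotientGroup.mk' (powers F p))) := by
      rw [← Subgroup.relIndex_ker, QuotientGroup.ker_mk']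
    rw [e] at h1 h2
    have hfin : Finite ((normGroup p g).map (QuotientGroup.mk' (powers F p))) :=
      Nat.finite_of_card_ne_zero h1
    refine ⟨(Set.toFinite ((normGroup p g).map (QuotientGroup.mk' (powers F p)) :
      Set (Fˣ ⧸ powers F p))).toFinset, ?_, ?_⟩
    · rw [← Set.ncard_eq_toFinset_card _ (Set.toFinite _), ← Nat.card_coe_set_eq]
      exact h2
    · intro g' hg' _ b hb
      rw [Set.Finite.mem_toFinset]
      obtain ⟨t, rfl⟩ := (mk_eq_iff g g').1 hg'.symm
      refine ⟨b, ?_, rfl⟩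
      have h3 := (Pool.Agent.Y349.EP.t_NG p hp hp2 F).2.2 g t
      have h4 : b ∈ nmG p (g * t ^ p) := hb
      rw [h3] at h4
      exact h4
  choose S hS1 hS2 using hS
  have hsub : normBall p a ⊆ ((insert 1 (((S a).erase 1).biUnion S) :
      Finset (Fˣ ⧸ powers F p)) : Set (Fˣ ⧸ powers F p)) := by
    rintro β (h | ⟨b, g, rfl, hg, hga, hgb⟩)
    · rw [h]
      exact Finset.mem_coe.2 (Finset.mem_insert_self _ _)
    by_cases hb : b ∈ powers F p
    · rw [(QuotientGroup.eq_one_iff b).2 hb]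
      exact Finset.mem_coe.2 (Finset.mem_insert_self _ _)
    refine Finset.mem_coe.2 (Finset.mem_insert_of_mem (Finset.mem_biUnion.2 ⟨g, ?_, ?_⟩))
    · refine Finset.mem_erase.2 ⟨?_, hS2 a a rfl ha g hga⟩
      intro h
      exact hg ((QuotientGroup.eq_one_iff g).1 h)
    · exact hS2 g g rfl hg b (Pool.Agent.Y349.EP.t_SYMM p hp hp2 F ζ hζ b g hb hg hgb)
  refine ⟨(Finset.finite_toSet _).subset hsub, ?_⟩
  refine (Set.ncard_le_ncard hsub (Finset.finite_toSet _)).trans ?_
  rw [Set.ncard_coe_finset]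
  have h1 : (1 : Fˣ ⧸ powers F p) ∈ S a := by
    have := hS2 a a rfl ha 1 (one_mem _)
    rwa [QuotientGroup.mk_one] at this
  have h2 : ((S a).erase 1).card = (S a).card - 1 := Finset.card_erase_of_mem h1
  have h3 : 0 < (S a).card := Finset.card_pos.2 ⟨_, h1⟩
  have h4 := hS1 (a : Fˣ ⧸ powers F p)
  obtain ⟨n, hn⟩ : ∃ n, N = n + 1 := ⟨N - 1, by omega⟩
  have h5 : (((S a).erase 1).biUnion S).card ≤ ((S a).erase 1).card * N := by
    refine Finset.card_biUnion_le.trans ?_
    rw [← smul_eq_mul]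
    exact Finset.sum_le_card_nsmul _ _ _ fun m _ => hS1 m
  have h6 : ((S a).erase 1).card * N ≤ n * N := Nat.mul_le_mul_right _ (by omega)
  have h7 : N ^ 2 = n * N + N := by rw [hn]; ring
  refine (Finset.card_insert_le _ _).trans ?_
  omega

/-- few value classes give small balls -/
lemma ball_of_few (hp : p.Prime) (hp2 : p ≠ 2) {m : ℕ}
    (hm : ∀ a : Fˣ, a ∉ powers F p →
      (valueClasses p a).Finite ∧ (valueClasses p a).ncard ≤ m)
    (a : Fˣ) (ha : a ∉ powers F p) :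
    (valueBall p a).Finite ∧ (valueBall p a).ncard ≤ m ^ 3 := by
  classical
  have hodd : Odd p := hp.odd_of_ne_two hp2
  have hS : ∀ γ : Fˣ ⧸ powers F p, ∃ S : Finset (Fˣ ⧸ powers F p), S.card ≤ m ∧
      ∀ g : Fˣ, (g : Fˣ ⧸ powers F p) = γ → g ∉ powers F p → valueClasses p g ⊆ S := by
    intro γ
    obtain ⟨g, rfl⟩ := QuotientGroup.mk_surjective γ
    by_cases hg : g ∈ powers F p
    · refine ⟨∅, by simp, fun g' hg' hg'' => ?_⟩
      exfalso
      apply hg''
      rw [← QuotientGroup.eq_one_iff, hg', QuotientGroup.eq_one_iff]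
      exact hg
    obtain ⟨h1, h2⟩ := hm g hg
    refine ⟨h1.toFinset, ?_, ?_⟩
    · rw [← Set.ncard_eq_toFinset_card _ h1]
      exact h2
    · intro g' hg' _ γ hγ
      rw [Finset.mem_coe, Set.Finite.mem_toFinset]
      obtain ⟨t, rfl⟩ := (mk_eq_iff g g').1 hg'.symm
      obtain ⟨c, x, y, hc, rfl⟩ := hγ
      refine ⟨c, x, t * y, ?_, rfl⟩
      rw [hc, Units.val_mul, Units.val_pow_eq_pow_val]
      ring
  choose S hS1 hS2 using hS
  have hsub : valueBall p a ⊆ ((insert 1 ((S a).offDiag.biUnion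
      fun q => S (q.1 / q.2)) : Finset (Fˣ ⧸ powers F p)) : Set (Fˣ ⧸ powers F p)) := by
    rintro β (h | ⟨b, γ, δ, rfl, hγ, hδ, hne, hb⟩)
    · rw [h]
      exact Finset.mem_coe.2 (Finset.mem_insert_self _ _)
    refine Finset.mem_coe.2 (Finset.mem_insert_of_mem (Finset.mem_biUnion.2 ⟨(γ, δ), ?_, ?_⟩))
    · exact Finset.mem_offDiag.2 ⟨hS2 a a rfl ha hγ, hS2 a a rfl ha hδ, hne⟩
    · obtain ⟨c, x, y, hc, hcγ⟩ := hb
      have hc1 : c ∉ powers F p := by
        intro h
        apply hne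
        rw [← div_eq_one, ← hcγ]
        exact (QuotientGroup.eq_one_iff c).2 h
      have hy : y ≠ 0 := by
        rintro rfl
        apply hc1
        have hx : x ≠ 0 := by
          rintro rfl
          rw [zero_pow hp.ne_zero, mul_zero, add_zero] at hc
          exact c.ne_zero hc
        refine mem_powers.2 ⟨Units.mk0 x hx, ?_⟩
        ext
        rw [hc, zero_pow hp.ne_zero, mul_zero, add_zero, Units.val_pow_eq_pow_val,
          Units.val_mk0]
      refine hS2 _ c hcγ hc1 ⟨b, -x / y, 1 / y, ?_, rfl⟩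
      rw [hc, div_pow, div_pow, hodd.neg_pow, one_pow]
      have hyp : y ^ p ≠ 0 := pow_ne_zero _ hy
      field_simp
      ring
  refine ⟨(Finset.finite_toSet _).subset hsub, ?_⟩
  refine (Set.ncard_le_ncard hsub (Finset.finite_toSet _)).trans ?_
  rw [Set.ncard_coe_finset]
  have h1 : (1 : Fˣ ⧸ powers F p) ∈ S a := by
    apply hS2 a a rfl ha
    exact ⟨1, 1, 0, by simp [hp.ne_zero], rfl⟩
  have h3 : 0 < (S a).card := Finset.card_pos.2 ⟨_, h1⟩
  have h4 := hS1 (a : Fˣ ⧸ powers F p)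
  obtain ⟨n, hn⟩ : ∃ n, m = n + 1 := ⟨m - 1, by omega⟩
  have h2 : (S a).offDiag.card ≤ m ^ 2 - m := by
    rw [Finset.offDiag_card]
    obtain ⟨k, hk⟩ : ∃ k, (S a).card = k + 1 := ⟨(S a).card - 1, by omega⟩
    rw [hk] at h4 ⊢
    have e1 : (k + 1) * (k + 1) = k * (k + 1) + (k + 1) := by ring
    have e2 : m ^ 2 = n * (n + 1) + m := by rw [hn]; ring
    have e3 : k * (k + 1) ≤ n * (n + 1) := Nat.mul_le_mul (by omega) (by omega)
    omega
  have h5 : (((S a).offDiag.biUnion
      fun q => S (q.1 / q.2))).card ≤ (S a).offDiag.card * m := by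
    refine Finset.card_biUnion_le.trans ?_
    rw [← smul_eq_mul]
    exact Finset.sum_le_card_nsmul _ _ _ fun q _ => hS1 _
  refine (Finset.card_insert_le _ _).trans ?_
  have h6 : m ^ 2 - m = n * (n + 1) := by
    rw [hn]
    have : (n + 1) ^ 2 = n * (n + 1) + (n + 1) := by ring
    omega
  have h7 := Nat.mul_le_mul_right m h2
  rw [h6] at h7
  have h8 : m ^ 3 = n * (n + 1) * m + (n + 1) * m := by rw [hn]; ring
  have h9 : 1 ≤ (n + 1) * m := Nat.mul_pos (Nat.succ_pos _) (by omega)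
  omega

end

theorem result (p : ℕ) [Fact p.Prime] (hp2 : p ≠ 2) (F : Type) [Field F]
    (hζ : ∃ ζ : F, IsPrimitiveRoot ζ p) :
    -- small balls of radius two in the graph of norms
    (∀ M : ℕ, (∀ a : Fˣ, a ∉ powers F p → (normBall p a).Finite ∧ (normBall p a).ncard ≤ M) →
      Conclusion p F (38 * M + 1)) ∧
    -- small norm groups
    (∀ N : ℕ, (∀ a : Fˣ, a ∉ powers F p →
        (powers F p).relIndex (normGroup p a) ≠ 0 ∧
        (powers F p).relIndex (normGroup p a) ≤ N) →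
      Conclusion p F (38 * N ^ 2 + 1)) ∧
    -- small balls for the values of the binary forms
    (∀ M : ℕ, (∀ a : Fˣ, a ∉ powers F p →
        (valueBall p a).Finite ∧ (valueBall p a).ncard ≤ M) →
      Conclusion p F (max p (38 * M + 1))) ∧
    -- few classes of values of the binary forms
    (∀ m : ℕ, (∀ a : Fˣ, a ∉ powers F p →
        (valueClasses p a).Finite ∧ (valueClasses p a).ncard ≤ m) →
      Conclusion p F (max p (38 * m ^ 3 + 1))) := by
  have hp : p.Prime := Fact.out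
  refine ⟨fun M hM => norm_version hp2 hζ M hM,
    fun N hN => norm_version hp2 hζ _ fun a ha => ball_of_norm hp hp2 hζ hN a ha,
    fun M hM => value_version hp2 hζ M hM,
    fun m hm => value_version hp2 hζ _ fun a ha => ball_of_few hp hp2 hm a ha⟩

end Pool.Agent.Results.MP_600e55_nt.RadiusTwoBalls
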